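import Mathlib

/-!
A binary code of length 16 with minimum distance at least 7 that has a symmetry whose coordinate
permutation has order divisible by p = 11 or p = 13 has size 0, 1 or 2 modulo p.
-/

namespace Pool.Agent.Lib.MP_f7b0cf_co.NoLargeSymmetry

open Equiv

/-- The isometry of the cube given by a coordinate permutation and a translation. -/
def act (σ : Perm (Fin 16)) (v x : Fin 16 → ZMod 2) : Fin 16 → ZMod 2 :=
  fun i => x (σ i) + v i

theorem iter (σ : Perm (Fin 16)) (v : Fin 16 → ZMod 2) (n : ℕ) :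
    ∃ w, ∀ x, (act σ v)^[n] x = act (σ ^ n) w x := by
  induction n with
  | zero => exact ⟨0, fun x => by funext i; simp [act]⟩
  | succ n ih =>
    obtain ⟨w, hw⟩ := ih
    refine ⟨fun i => v ((σ ^ n) i) + w i, fun x => ?_⟩
    rw [Function.iterate_succ_apply, hw]
    funext i
    simp [act, pow_succ', add_assoc]

theorem maps_iter {C : Finset (Fin 16 → ZMod 2)} {g : (Fin 16 → ZMod 2) → (Fin 16 → ZMod 2)}
    (h : ∀ x ∈ C, g x ∈ C) (n : ℕ) : ∀ x ∈ C, g^[n] x ∈ C := by
  induction n with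
  | zero => intro x hx; simpa using hx
  | succ n ih => intro x hx; rw [Function.iterate_succ_apply]; exact ih _ (h x hx)

theorem key (C : Finset (Fin 16 → ZMod 2))
    (hd : ∀ x ∈ C, ∀ y ∈ C, x ≠ y → 7 ≤ hammingDist x y)
    (p : ℕ) (hp : p = 11 ∨ p = 13) (σ : Perm (Fin 16)) (v : Fin 16 → ZMod 2)
    (ho : orderOf σ = p) (hm : ∀ x ∈ C, act σ v x ∈ C) (hid : ∀ x, (act σ v)^[p] x = x) :
    C.card % p ≤ 2 := by
  classical
  by_contra hC
  have hpp : p.Prime := by rcases hp with rfl | rfl <;> norm_num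
  have : Fact p.Prime := ⟨hpp⟩
  have hs : σ.support.card ≤ 16 := by simpa using Finset.card_le_univ σ.support
  have hcyc : σ.IsCycle := Perm.isCycle_of_prime_order (ho ▸ hpp) (by rw [ho]; omega)
  have hsup : σ.support.card = p := by rw [← hcyc.orderOf, ho]
  let f : Function.End C := fun x => ⟨act σ v x.1, hm _ x.2⟩
  have hfi : ∀ (n : ℕ) (x : C), ((f ^ n) x).1 = (act σ v)^[n] x.1 := by
    intro n
    induction n with
    | zero => intro x; rfl
    | succ n ih =>
      intro x
      rw [pow_succ, Function.iterate_succ_apply]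
      exact ih (f x)
  have hf : f ^ p ^ 1 = 1 := by
    funext x
    apply Subtype.ext
    rw [pow_one, hfi, hid]
    rfl
  have hmod := Perm.card_fixedPoints_modEq hf
  rw [Fintype.card_coe] at hmod
  have h3 : Fintype.card (ZMod 2) < Fintype.card f.fixedPoints := by
    rw [ZMod.card]
    unfold Nat.ModEq at hmod
    rcases hp with rfl | rfl <;> omega
  obtain ⟨a, ha, hall⟩ := hcyc
  obtain ⟨x, y, hxy, hE⟩ :=
    Fintype.exists_ne_map_eq_of_card_lt (fun x : f.fixedPoints => x.1.1 a) h3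
  have hx : ∀ i, x.1.1 (σ i) + v i = x.1.1 i := fun i => congrFun (congrArg Subtype.val x.2) i
  have hy : ∀ i, y.1.1 (σ i) + v i = y.1.1 i := fun i => congrFun (congrArg Subtype.val y.2) i
  have hn : ∀ n : ℕ, x.1.1 ((σ ^ n) a) = y.1.1 ((σ ^ n) a) := by
    intro n
    induction n with
    | zero => simpa using hE
    | succ n ih =>
      rw [pow_succ', Perm.mul_apply]
      have h1 := hx ((σ ^ n) a)
      have h2 := hy ((σ ^ n) a)
      rw [ih, ← h2] at h1
      exact add_right_cancel h1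
  have hne : x.1.1 ≠ y.1.1 := fun h => hxy (Subtype.ext (Subtype.ext h))
  have h7 := hd _ x.1.2 _ y.1.2 hne
  have hsub : hammingDist x.1.1 y.1.1 ≤ (σ.supportᶜ).card := by
    unfold hammingDist
    apply Finset.card_le_card
    intro i hi
    rw [Finset.mem_compl, Perm.mem_support]
    intro hi2
    obtain ⟨n, hn2⟩ := (hall hi2).exists_nat_pow_eq
    have h4 := hn n
    rw [hn2] at h4
    exact (Finset.mem_filter.1 hi).2 h4
  rw [Finset.card_compl, hsup, Fintype.card_fin] at hsub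
  omega

theorem result (C : Finset (Fin 16 → ZMod 2))
    (hd : ∀ x ∈ C, ∀ y ∈ C, x ≠ y → 7 ≤ hammingDist x y)
    (σ : Equiv.Perm (Fin 16)) (v : Fin 16 → ZMod 2)
    (hm : ∀ x ∈ C, (fun i => x (σ i) + v i) ∈ C)
    (p : ℕ) (hp : p = 11 ∨ p = 13) (hdiv : p ∣ orderOf σ) :
    C.card % p ≤ 2 := by
  have h0 : orderOf σ ≠ 0 := (orderOf_pos σ).ne'
  have h1 : orderOf (σ ^ (orderOf σ / p)) = p := orderOf_pow_orderOf_div h0 hdiv
  obtain ⟨w, hw⟩ := iter σ v (orderOf σ / p)
  set τ := σ ^ (orderOf σ / p) with hτ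
  have hm1 : ∀ x ∈ C, act τ w x ∈ C := fun x hx => hw x ▸ maps_iter (g := act σ v) hm _ x hx
  obtain ⟨u, hu⟩ := iter τ w 2
  obtain ⟨t, ht⟩ := iter τ w p
  have hτp : τ ^ p = 1 := h1 ▸ pow_orderOf_eq_one τ
  have h2 : orderOf (τ ^ 2) = p := by
    rw [Nat.Coprime.orderOf_pow (by rw [h1]; rcases hp with rfl | rfl <;> norm_num), h1]
  refine key C hd p hp (τ ^ 2) u h2
    (fun x hx => hu x ▸ maps_iter (g := act τ w) hm1 2 x hx) (fun x => ?_)
  have he : act (τ ^ 2) u = (act τ w)^[2] := funext fun x => (hu x).symm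
  rw [he, ← Function.iterate_mul, mul_comm, Function.iterate_mul]
  have he2 : (act τ w)^[p] = act 1 t := funext fun x => by rw [ht, hτp]
  rw [he2]
  funext i
  simp [act, add_assoc, CharTwo.add_self_eq_zero]

end Pool.Agent.Lib.MP_f7b0cf_co.NoLargeSymmetry
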